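import Pool.Agent.Run7.h116.PL.QF

set_option autoImplicit false

open Module Pool.Agent.Run7.h358.PL Pool.Agent.Run7.h116.PL.QF

namespace Pool.Agent.Run7.h116.PL.BAS

/-- matrix units -/
noncomputable def EE (p q : Fin 2) : Matrix (Fin 2) (Fin 2) ℂ := Matrix.single p q 1

theorem EE_mul (p q : Fin 2) : EE 0 p * EE q 0 = if p = q then EE 0 0 else 0 := by
  unfold EE
  fin_cases p <;> fin_cases q <;> ext i j <;> fin_cases i <;> fin_cases j <;>
    simp [Matrix.mul_apply, Matrix.single]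

theorem mul_EE (a : Matrix (Fin 2) (Fin 2) ℂ) (p : Fin 2) :
    a * EE p 0 = ∑ q, a q p • EE q 0 := by
  unfold EE
  fin_cases p <;> ext i j <;> fin_cases i <;> fin_cases j <;>
    simp [Matrix.mul_apply, Matrix.single]

theorem sum_EE : ∑ p : Fin 2, EE p 0 * EE 0 p = 1 := by
  unfold EE
  ext i j
  fin_cases i <;> fin_cases j <;> simp [Matrix.mul_apply, Matrix.single]

/-- the diagonal matrix -/
def HD : Matrix (Fin 2) (Fin 2) ℂ := !![1, 0; 0, -1]

theorem HD_mul : HD * HD = 1 := by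
  unfold HD
  ext i j
  fin_cases i <;> fin_cases j <;> simp [Matrix.mul_apply]

theorem HD_tr : HD.trace = 0 := by
  unfold HD
  simp [Matrix.trace_fin_two]

section

variable {V : Type} [AddCommGroup V] [Module ℂ V] {ω : V →ₗ[ℂ] V →ₗ[ℂ] ℂ}
  {E B : Submodule ℂ (Module.End ℂ V)} {n : ℕ}
  {φ : Fin n → Matrix (Fin 2) (Fin 2) ℂ →ₗ[ℂ] Module.End ℂ V}
  {X : Type} [Fintype X] [DecidableEq X] {bar : X → X} {π : X → Module.End ℂ V}
  {χ : X → Module.End ℂ V → ℂ}

theorem mulB (hA : Alg0 ω E B) {a b : Module.End ℂ V} (ha : a ∈ B) (hb : b ∈ B) : a * b ∈ B := by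
  refine (hA.commB _).2 fun Q hQ => ?_
  rw [mul_assoc, (hA.commB b).1 hb Q hQ, ← mul_assoc, (hA.commB a).1 ha Q hQ, mul_assoc]

theorem oneB (hA : Alg0 ω E B) : (1 : Module.End ℂ V) ∈ B := by
  refine (hA.commB _).2 fun Q hQ => ?_
  rw [one_mul, mul_one]

theorem phi_mem (hP : Planar ω E B φ) (i : Fin n) (a : Matrix (Fin 2) (Fin 2) ℂ) : φ i a ∈ B := by
  have h1 : φ i 1 ∈ B := by
    rw [← HD_mul, hP.mul]
    exact mulB hP.alg (hP.sl i _ HD_tr).1 (hP.sl i _ HD_tr).1
  have h2 : a = (a - (a.trace / 2) • (1 : Matrix (Fin 2) (Fin 2) ℂ)) +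
      (a.trace / 2) • (1 : Matrix (Fin 2) (Fin 2) ℂ) := by rw [sub_add_cancel]
  rw [h2, map_add, map_smul]
  refine B.add_mem (hP.sl i _ ?_).1 (B.smul_mem _ h1)
  rw [Matrix.trace_sub, Matrix.trace_smul, Matrix.trace_one]
  simp

theorem phi_sa (hP : Planar ω E B φ) (i : Fin n) (u v : V) : ω (φ i 1 u) v = ω u (φ i 1 v) := by
  rw [← HD_mul, hP.mul]
  have h1 := (hP.sl i _ HD_tr).2 (φ i HD u) v
  have h2 := (hP.sl i _ HD_tr).2 u (φ i HD v)
  simp only [Module.End.mul_apply]
  linear_combination h1 - h2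

theorem c_memE (hP : Planar ω E B φ) (i : Fin n) : φ i 1 ∈ E := by
  refine hP.com _ fun Y hY hs => ?_
  obtain ⟨x, hx0, hxE⟩ := hP.gen Y hY hs
  have h1 : Y = (Y - ∑ k, φ k (x k)) + ∑ k, φ k (x k) := by rw [sub_add_cancel]
  have h2 := (hP.alg.commB _).1 (phi_mem hP i 1) _ hxE
  have h3 : (∑ k, φ k (x k)) * φ i 1 = φ i (x i) := by
    rw [Finset.sum_mul, Finset.sum_eq_single i, ← hP.mul, mul_one]
    · intro k _ hk
      exact hP.orth k i hk _ _
    · intro h; exact absurd (Finset.mem_univ i) h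
  have h4 : φ i 1 * (∑ k, φ k (x k)) = φ i (x i) := by
    rw [Finset.mul_sum, Finset.sum_eq_single i, ← hP.mul, one_mul]
    · intro k _ hk
      exact hP.orth i k (Ne.symm hk) _ _
    · intro h; exact absurd (Finset.mem_univ i) h
  rw [h1, add_mul, mul_add, h2, h3, h4]

theorem c_idem (hP : Planar ω E B φ) (i : Fin n) : φ i 1 * φ i 1 = φ i 1 := by
  rw [← hP.mul, one_mul]

open Classical in
/-- the index of the planar colour -/
noncomputable def io (φ : Fin n → Matrix (Fin 2) (Fin 2) ℂ →ₗ[ℂ] Module.End ℂ V)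
    (χ : X → Module.End ℂ V → ℂ) (x : X) : Option (Fin n) :=
  if h : ∃ i, χ x (φ i 1) = 1 then some h.choose else none

theorem io_some (hP : Planar ω E B φ) (hI : Idem ω E B bar π χ) {x : X} {i : Fin n}
    (h : io φ χ x = some i) : φ i 1 * π x = π x := by
  unfold io at h
  split_ifs at h with h1
  have h2 := h1.choose_spec
  rw [Option.some.inj h] at h2
  rw [hI.scal _ (phi_mem hP i 1) (c_memE hP i), h2, one_smul]

theorem io_ne (hP : Planar ω E B φ) (hI : Idem ω E B bar π χ) {x : X} {i : Fin n}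
    (h : io φ χ x ≠ some i) : φ i 1 * π x = 0 := by
  by_cases h1 : ∃ i, χ x (φ i 1) = 1
  · have h2 : io φ χ x = some h1.choose := by
      unfold io
      rw [dif_pos h1]
    have h3 := io_some hP hI h2
    have h4 : i ≠ h1.choose := fun e => h (by rw [h2, ← e])
    rw [← h3, ← mul_assoc, hP.orth i _ h4, zero_mul]
  · push Not at h1
    have h2 := hI.scal _ (phi_mem hP i 1) (c_memE hP i) x
    have h3 : φ i 1 * (φ i 1 * π x) = φ i 1 * π x := by rw [← mul_assoc, c_idem hP]
    rw [h2, mul_smul_comm, h2, smul_smul] at h3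
    have h4 : (χ x (φ i 1) * χ x (φ i 1) - χ x (φ i 1)) • π x = 0 := by rw [sub_smul, h3, sub_self]
    rcases smul_eq_zero.1 h4 with h5 | h5
    · have h6 : χ x (φ i 1) * (χ x (φ i 1) - 1) = 0 := by linear_combination h5
      rcases mul_eq_zero.1 h6 with h7 | h7
      · rw [h2, h7, zero_smul]
      · exact absurd (sub_eq_zero.1 h7) (h1 i)
    · exact absurd h5 (hI.ne x)

theorem io_bar1 (hP : Planar ω E B φ) (hI : Idem ω E B bar π χ) {x : X} {i : Fin n}
    (h : io φ χ x = some i) : io φ χ (bar x) = some i := by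
  by_contra hcon
  have h1 := io_ne hP hI hcon
  have h2 := io_some hP hI h
  have hcm : φ i 1 * π x = π x * φ i 1 := (hP.alg.commB _).1 (phi_mem hP i 1) _ (hI.memE x)
  refine hI.ne (bar x) (LinearMap.ext fun v => ?_)
  refine nd2 hP.alg.alt hP.alg.nondeg fun u => ?_
  have h3 : ω u (φ i 1 (π (bar x) v)) = 0 := by
    have := congrArg (fun f : Module.End ℂ V => f v) h1
    simp only [Module.End.mul_apply, LinearMap.zero_apply] at this
    rw [this, map_zero]
  rw [← phi_sa hP, ← hI.adj] at h3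
  have h4 : π x (φ i 1 u) = π x u := by
    have := congrArg (fun f : Module.End ℂ V => f u) (hcm.symm.trans h2)
    simpa only [Module.End.mul_apply] using this
  rw [h4, hI.adj] at h3
  rw [h3]
  simp

theorem io_bar (hP : Planar ω E B φ) (hI : Idem ω E B bar π χ) (x : X) :
    io φ χ (bar x) = io φ χ x := by
  rcases h : io φ χ x with _ | i
  · rcases h' : io φ χ (bar x) with _ | k
    · rfl
    · have := io_bar1 hP hI h'
      rw [hI.bar_bar, h] at this
      exact absurd this (by simp)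
  · exact io_bar1 hP hI h

/-- the matrices on the planes of the colour -/
noncomputable def ph (φ : Fin n → Matrix (Fin 2) (Fin 2) ℂ →ₗ[ℂ] Module.End ℂ V)
    (χ : X → Module.End ℂ V → ℂ) (x : X) : Matrix (Fin 2) (Fin 2) ℂ →ₗ[ℂ] Module.End ℂ V :=
  (io φ χ x).elim 0 φ

theorem ph_some {x : X} {i : Fin n} (h : io φ χ x = some i) : ph φ χ x = φ i := by
  unfold ph; rw [h]; rfl

theorem ph_none {x : X} (h : io φ χ x = none) : ph φ χ x = 0 := by
  unfold ph; rw [h]; rfl

theorem ph_bar (hP : Planar ω E B φ) (hI : Idem ω E B bar π χ) (x : X) :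
    ph φ χ (bar x) = ph φ χ x := by
  unfold ph; rw [io_bar hP hI]

theorem ph_mul (hP : Planar ω E B φ) (x : X) (a b : Matrix (Fin 2) (Fin 2) ℂ) :
    ph φ χ x (a * b) = ph φ χ x a * ph φ χ x b := by
  rcases h : io φ χ x with _ | i
  · rw [ph_none h]; simp
  · rw [ph_some h, hP.mul]

theorem ph_mem (hP : Planar ω E B φ) (x : X) (a : Matrix (Fin 2) (Fin 2) ℂ) : ph φ χ x a ∈ B := by
  rcases h : io φ χ x with _ | i
  · rw [ph_none h]; simp
  · rw [ph_some h]; exact phi_mem hP i a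

theorem ph_sk (hP : Planar ω E B φ) (x : X) (a : Matrix (Fin 2) (Fin 2) ℂ) (ha : a.trace = 0) :
    Sk ω (ph φ χ x a) := by
  rcases h : io φ χ x with _ | i
  · rw [ph_none h]; intro u v; simp
  · rw [ph_some h]; exact (hP.sl i a ha).2

theorem ph_sa (hP : Planar ω E B φ) (x : X) (u v : V) :
    ω (ph φ χ x 1 u) v = ω u (ph φ χ x 1 v) := by
  rcases h : io φ χ x with _ | i
  · rw [ph_none h]; simp
  · rw [ph_some h]; exact phi_sa hP i u v

theorem ph_pi (hP : Planar ω E B φ) (hI : Idem ω E B bar π χ) (x y : X)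
    (a : Matrix (Fin 2) (Fin 2) ℂ) (v : V) : ph φ χ x a (π y v) = π y (ph φ χ x a v) := by
  have h := (hP.alg.commB _).1 (ph_mem (χ := χ) hP x a) _ (hI.memE y)
  have h2 := congrArg (fun f : Module.End ℂ V => f v) h
  simpa only [Module.End.mul_apply] using h2

theorem phi_pi (hP : Planar ω E B φ) (hI : Idem ω E B bar π χ) (x y : X) (i : Fin n)
    (a : Matrix (Fin 2) (Fin 2) ℂ) (v : V) : φ i a (π y v) = π y (φ i a v) := by
  have h := (hP.alg.commB _).1 (phi_mem hP i a) _ (hI.memE y)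
  have h2 := congrArg (fun f : Module.End ℂ V => f v) h
  simpa only [Module.End.mul_apply] using h2

theorem pi_pi (hI : Idem ω E B bar π χ) (x y : X) (v : V) :
    π x (π y v) = if x = y then π x v else 0 := by
  have h2 := congrArg (fun f : Module.End ℂ V => f v) (hI.mul x y)
  simp only [Module.End.mul_apply] at h2
  rw [h2]
  split_ifs <;> rfl

/-- `M x` -/
noncomputable def MM (φ : Fin n → Matrix (Fin 2) (Fin 2) ℂ →ₗ[ℂ] Module.End ℂ V)
    (π : X → Module.End ℂ V) (χ : X → Module.End ℂ V → ℂ) (x : X) : Submodule ℂ V :=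
  LinearMap.range (ph φ χ x (EE 0 0) * π x)

/-- `N x` -/
noncomputable def NN (φ : Fin n → Matrix (Fin 2) (Fin 2) ℂ →ₗ[ℂ] Module.End ℂ V)
    (π : X → Module.End ℂ V) (χ : X → Module.End ℂ V → ℂ) (x : X) : Submodule ℂ V :=
  LinearMap.range ((1 - ph φ χ x 1) * π x)

theorem memM (hP : Planar ω E B φ) (hI : Idem ω E B bar π χ) {x : X} {b : V}
    (hb : b ∈ MM φ π χ x) : (∀ y, π y b = if y = x then b else 0) ∧ ph φ χ x (EE 0 0) b = b := by
  obtain ⟨w, rfl⟩ := hb
  simp only [Module.End.mul_apply]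
  constructor
  · intro y
    rw [← ph_pi hP hI, pi_pi hI]
    split_ifs with h
    · rw [h]
    · rw [map_zero]
  · have h1 : EE 0 0 * EE 0 0 = EE 0 0 := by rw [EE_mul, if_pos rfl]
    have h2 := congrArg (fun f : Module.End ℂ V => f (π x w)) (ph_mul (χ := χ) hP x (EE 0 0) (EE 0 0))
    simp only [Module.End.mul_apply, h1] at h2
    exact h2.symm

theorem memN (hP : Planar ω E B φ) (hI : Idem ω E B bar π χ) {x : X} {b : V}
    (hb : b ∈ NN φ π χ x) : (∀ y, π y b = if y = x then b else 0) ∧ ph φ χ x 1 b = 0 ∧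
      ∀ k a, φ k a b = 0 := by
  obtain ⟨w, rfl⟩ := hb
  have h11 : ph φ χ x 1 (ph φ χ x 1 (π x w)) = ph φ χ x 1 (π x w) := by
    have h2 := congrArg (fun f : Module.End ℂ V => f (π x w)) (ph_mul (χ := χ) hP x 1 1)
    simp only [Module.End.mul_apply, one_mul] at h2
    exact h2.symm
  simp only [Module.End.mul_apply, LinearMap.sub_apply, Module.End.one_apply]
  refine ⟨fun y => ?_, ?_, fun k a => ?_⟩
  · rw [map_sub, pi_pi hI, ← ph_pi hP hI, pi_pi hI]
    split_ifs with h
    · rw [h]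
    · rw [map_zero, sub_zero]
  · rw [map_sub, h11, sub_self]
  · by_cases h : io φ χ x = some k
    · rw [ph_some h]
      have h2 := congrArg (fun f : Module.End ℂ V => f (π x w)) (hP.mul k a 1)
      simp only [Module.End.mul_apply, mul_one] at h2
      rw [map_sub, ← h2, sub_self]
    · have h3 := io_ne hP hI h
      have h4 : ∀ v, φ k a (π x v) = 0 := by
        intro v
        have h5 := congrArg (fun f : Module.End ℂ V => f (π x v)) (hP.mul k a 1)
        have h6 := congrArg (fun f : Module.End ℂ V => f v) h3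
        simp only [Module.End.mul_apply, mul_one, LinearMap.zero_apply] at h5 h6
        rw [h5, h6, map_zero]
      rw [map_sub, h4, ph_pi hP hI, h4, sub_zero]

end

end Pool.Agent.Run7.h116.PL.BAS
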