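import Pool.Agent.Run7.h116.PL.BAS

set_option autoImplicit false

open Module Pool.Agent.Run7.h358.PL Pool.Agent.Run7.h116.PL.QF

namespace Pool.Agent.Run7.h116.PL.BAS

section

variable {V : Type} [AddCommGroup V] [Module ℂ V] [FiniteDimensional ℂ V] {ω : V →ₗ[ℂ] V →ₗ[ℂ] ℂ}
  {E B : Submodule ℂ (Module.End ℂ V)} {n : ℕ}
  {φ : Fin n → Matrix (Fin 2) (Fin 2) ℂ →ₗ[ℂ] Module.End ℂ V}
  {X : Type} [Fintype X] [DecidableEq X] {bar : X → X} {π : X → Module.End ℂ V}
  {χ : X → Module.End ℂ V → ℂ}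

/-- indices of the planes -/
abbrev TT (φ : Fin n → Matrix (Fin 2) (Fin 2) ℂ →ₗ[ℂ] Module.End ℂ V)
    (π : X → Module.End ℂ V) (χ : X → Module.End ℂ V → ℂ) : Type :=
  Σ x : X, Fin (finrank ℂ (MM φ π χ x))

/-- indices of the lines -/
abbrev UU (φ : Fin n → Matrix (Fin 2) (Fin 2) ℂ →ₗ[ℂ] Module.End ℂ V)
    (π : X → Module.End ℂ V) (χ : X → Module.End ℂ V → ℂ) : Type :=
  Σ x : X, Fin (finrank ℂ (NN φ π χ x))

/-- basis of `M x` -/
noncomputable def bM (φ : Fin n → Matrix (Fin 2) (Fin 2) ℂ →ₗ[ℂ] Module.End ℂ V)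
    (π : X → Module.End ℂ V) (χ : X → Module.End ℂ V → ℂ) (t : TT φ π χ) : V :=
  (Module.finBasis ℂ (MM φ π χ t.1) t.2 : V)

/-- basis of `N x` -/
noncomputable def bN (φ : Fin n → Matrix (Fin 2) (Fin 2) ℂ →ₗ[ℂ] Module.End ℂ V)
    (π : X → Module.End ℂ V) (χ : X → Module.End ℂ V → ℂ) (u : UU φ π χ) : V :=
  (Module.finBasis ℂ (NN φ π χ u.1) u.2 : V)

/-- the basis vectors -/
noncomputable def ve (φ : Fin n → Matrix (Fin 2) (Fin 2) ℂ →ₗ[ℂ] Module.End ℂ V)
    (π : X → Module.End ℂ V) (χ : X → Module.End ℂ V → ℂ) : Lt (TT φ π χ) (UU φ π χ) → V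
  | Sum.inl y => ph φ χ y.2.1 (EE y.1 0) (bM φ π χ y.2)
  | Sum.inr u => bN φ π χ u

theorem bM_mem (t : TT φ π χ) : bM φ π χ t ∈ MM φ π χ t.1 := (Module.finBasis ℂ (MM φ π χ t.1) t.2).2

theorem bN_mem (t : UU φ π χ) : bN φ π χ t ∈ NN φ π χ t.1 := (Module.finBasis ℂ (NN φ π χ t.1) t.2).2

/-- the operator `D` on the planes -/
theorem D_T (hP : Planar ω E B φ) (hI : Idem ω E B bar π χ) (x : X) (p q : Fin 2) (t : TT φ π χ) :
    ph φ χ x (EE 0 p) (π x (ve φ π χ (Sum.inl (q, t)))) =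
      if t.1 = x ∧ p = q then bM φ π χ t else 0 := by
  obtain ⟨h1, h2⟩ := memM hP hI (bM_mem t)
  show ph φ χ x (EE 0 p) (π x (ph φ χ t.1 (EE q 0) (bM φ π χ t))) = _
  rw [← ph_pi hP hI, h1]
  by_cases hx : x = t.1
  · subst hx
    rw [if_pos rfl]
    have h3 := congrArg (fun f : Module.End ℂ V => f (bM φ π χ t))
      (ph_mul (χ := χ) hP t.1 (EE 0 p) (EE q 0))
    simp only [Module.End.mul_apply] at h3
    rw [← h3, EE_mul]
    by_cases hpq : p = q
    · rw [if_pos hpq, if_pos ⟨rfl, hpq⟩, h2]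
    · rw [if_neg hpq, if_neg (fun h => hpq h.2), map_zero]
      rfl
  · rw [if_neg hx, map_zero, map_zero, if_neg (fun h => hx h.1.symm)]

theorem D_U (hP : Planar ω E B φ) (hI : Idem ω E B bar π χ) (x : X) (p : Fin 2) (u : UU φ π χ) :
    ph φ χ x (EE 0 p) (π x (ve φ π χ (Sum.inr u))) = 0 := by
  obtain ⟨h1, h2, h3⟩ := memN hP hI (bN_mem u)
  show ph φ χ x (EE 0 p) (π x (bN φ π χ u)) = _
  rw [h1]
  split_ifs with hx
  · subst hx
    rcases h : io φ χ u.1 with _ | i
    · rw [ph_none h]; rfl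
    · rw [ph_some h, h3]
  · rw [map_zero]

theorem D'_T (hP : Planar ω E B φ) (hI : Idem ω E B bar π χ) (x : X) (q : Fin 2) (t : TT φ π χ) :
    (1 - ph φ χ x 1) (π x (ve φ π χ (Sum.inl (q, t)))) = 0 := by
  obtain ⟨h1, h2⟩ := memM hP hI (bM_mem t)
  show (1 - ph φ χ x 1) (π x (ph φ χ t.1 (EE q 0) (bM φ π χ t))) = _
  rw [← ph_pi hP hI, h1]
  split_ifs with hx
  · subst hx
    have h3 := congrArg (fun f : Module.End ℂ V => f (bM φ π χ t))
      (ph_mul (χ := χ) hP t.1 1 (EE q 0))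
    simp only [Module.End.mul_apply, one_mul] at h3
    simp only [LinearMap.sub_apply, Module.End.one_apply]
    rw [← h3, sub_self]
  · rw [map_zero, map_zero]

theorem D'_U (hP : Planar ω E B φ) (hI : Idem ω E B bar π χ) (x : X) (u : UU φ π χ) :
    (1 - ph φ χ x 1) (π x (ve φ π χ (Sum.inr u))) = if u.1 = x then bN φ π χ u else 0 := by
  obtain ⟨h1, h2, h3⟩ := memN hP hI (bN_mem u)
  show (1 - ph φ χ x 1) (π x (bN φ π χ u)) = _
  rw [h1]
  by_cases hx : x = u.1
  · subst hx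
    rw [if_pos rfl]
    simp only [LinearMap.sub_apply, Module.End.one_apply]
    rw [h2, sub_zero]
  · rw [if_neg hx, if_neg (Ne.symm hx), map_zero]

theorem li_ve (hP : Planar ω E B φ) (hI : Idem ω E B bar π χ) :
    LinearIndependent ℂ (ve φ π χ) := by
  rw [Fintype.linearIndependent_iff]
  intro g hg
  rw [Fintype.sum_sum_type, Fintype.sum_prod_type] at hg
  have hM : ∀ (x : X) (p : Fin 2) (j : Fin (finrank ℂ (MM φ π χ x))), g (Sum.inl (p, ⟨x, j⟩)) = 0 := by
    intro x p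
    have h1 := congrArg (fun v => ph φ χ x (EE 0 p) (π x v)) hg
    simp only [map_add, map_sum, map_smul, map_zero, D_T hP hI, D_U hP hI, smul_zero,
      Finset.sum_const_zero, add_zero] at h1
    rw [Finset.sum_eq_single p] at h1
    · rw [Fintype.sum_sigma, Finset.sum_eq_single x] at h1
      · simp only [and_self, if_true] at h1
        have hli := (Module.finBasis ℂ (MM φ π χ x)).linearIndependent.map' (MM φ π χ x).subtype
          (MM φ π χ x).ker_subtype
        rw [Fintype.linearIndependent_iff] at hli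
        exact hli (fun j => g (Sum.inl (p, ⟨x, j⟩))) h1
      · intro y _ hy
        refine Finset.sum_eq_zero fun j _ => ?_
        rw [if_neg (fun h => hy h.1), smul_zero]
      · intro h; exact absurd (Finset.mem_univ x) h
    · intro q _ hq
      refine Finset.sum_eq_zero fun t _ => ?_
      rw [if_neg (fun h => hq h.2.symm), smul_zero]
    · intro h; exact absurd (Finset.mem_univ p) h
  have hN : ∀ (x : X) (j : Fin (finrank ℂ (NN φ π χ x))), g (Sum.inr ⟨x, j⟩) = 0 := by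
    intro x
    have h1 := congrArg (fun v => (1 - ph φ χ x 1) (π x v)) hg
    simp only [map_add, map_sum, map_smul, map_zero, D'_T hP hI, D'_U hP hI, smul_zero,
      Finset.sum_const_zero, zero_add] at h1
    rw [Fintype.sum_sigma, Finset.sum_eq_single x] at h1
    · simp only [if_true] at h1
      have hli := (Module.finBasis ℂ (NN φ π χ x)).linearIndependent.map' (NN φ π χ x).subtype
        (NN φ π χ x).ker_subtype
      rw [Fintype.linearIndependent_iff] at hli
      exact hli (fun j => g (Sum.inr ⟨x, j⟩)) h1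
    · intro y _ hy
      refine Finset.sum_eq_zero fun j _ => ?_
      rw [if_neg hy, smul_zero]
    · intro h; exact absurd (Finset.mem_univ x) h
  rintro (⟨p, x, j⟩ | ⟨x, j⟩)
  · exact hM x p j
  · exact hN x j

theorem sp_ve (hP : Planar ω E B φ) (hI : Idem ω E B bar π χ) :
    ⊤ ≤ Submodule.span ℂ (Set.range (ve φ π χ)) := by
  intro v _
  have h0 : v = ∑ x, π x v := by
    have := congrArg (fun f : Module.End ℂ V => f v) hI.sum
    simp only [LinearMap.sum_apply, Module.End.one_apply] at this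
    exact this.symm
  rw [h0]
  refine Submodule.sum_mem _ fun x _ => ?_
  have h1 : π x v = ∑ p : Fin 2, ph φ χ x (EE p 0) (ph φ χ x (EE 0 p) (π x v)) +
      (1 - ph φ χ x 1) (π x v) := by
    have h2 : ∑ p : Fin 2, ph φ χ x (EE p 0) (ph φ χ x (EE 0 p) (π x v)) = ph φ χ x 1 (π x v) := by
      rw [← sum_EE, map_sum, LinearMap.sum_apply]
      refine Finset.sum_congr rfl fun p _ => ?_
      rw [ph_mul hP]
      rfl
    rw [h2]
    simp only [LinearMap.sub_apply, Module.End.one_apply]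
    abel
  rw [h1]
  refine Submodule.add_mem _ (Submodule.sum_mem _ fun p _ => ?_) ?_
  · have h2 : ph φ χ x (EE 0 p) (π x v) ∈ MM φ π χ x := by
      refine ⟨ph φ χ x (EE 0 p) v, ?_⟩
      simp only [Module.End.mul_apply]
      rw [← ph_pi hP hI]
      have h3 := congrArg (fun f : Module.End ℂ V => f (π x v))
        (ph_mul (χ := χ) hP x (EE 0 0) (EE 0 p))
      simp only [Module.End.mul_apply] at h3
      rw [← h3]
      congr 2
      unfold EE
      ext i j
      fin_cases p <;> fin_cases i <;> fin_cases j <;> simp [Matrix.mul_apply, Matrix.single]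
    generalize ph φ χ x (EE 0 p) (π x v) = w at h2
    have h4 := (Module.finBasis ℂ (MM φ π χ x)).sum_repr ⟨w, h2⟩
    have h5 := congrArg (fun z : MM φ π χ x => (z : V)) h4
    simp only [Submodule.coe_sum, Submodule.coe_smul] at h5
    rw [← h5, map_sum]
    refine Submodule.sum_mem _ fun j _ => ?_
    rw [map_smul]
    exact Submodule.smul_mem _ _ (Submodule.subset_span ⟨Sum.inl (p, ⟨x, j⟩), rfl⟩)
  · have h2 : (1 - ph φ χ x 1) (π x v) ∈ NN φ π χ x := ⟨v, rfl⟩
    generalize (1 - ph φ χ x 1) (π x v) = w at h2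
    have h4 := (Module.finBasis ℂ (NN φ π χ x)).sum_repr ⟨w, h2⟩
    have h5 := congrArg (fun z : NN φ π χ x => (z : V)) h4
    simp only [Submodule.coe_sum, Submodule.coe_smul] at h5
    rw [← h5]
    refine Submodule.sum_mem _ fun j _ => ?_
    exact Submodule.smul_mem _ _ (Submodule.subset_span ⟨Sum.inr ⟨x, j⟩, rfl⟩)

/-- the basis -/
noncomputable def ba (hP : Planar ω E B φ) (hI : Idem ω E B bar π χ) :
    Basis (Lt (TT φ π χ) (UU φ π χ)) ℂ V := Basis.mk (li_ve hP hI) (sp_ve hP hI)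

theorem ba_apply (hP : Planar ω E B φ) (hI : Idem ω E B bar π χ) (y) :
    ba hP hI y = ve φ π χ y := by
  unfold ba
  rw [Basis.mk_apply]

theorem pi_T (hP : Planar ω E B φ) (hI : Idem ω E B bar π χ) (x : X) (p : Fin 2) (t : TT φ π χ) :
    π x (ba hP hI (Sum.inl (p, t))) = if x = t.1 then ba hP hI (Sum.inl (p, t)) else 0 := by
  rw [ba_apply]
  obtain ⟨h1, h2⟩ := memM hP hI (bM_mem t)
  show π x (ph φ χ t.1 (EE p 0) (bM φ π χ t)) = if x = t.1 then ph φ χ t.1 (EE p 0) (bM φ π χ t) else 0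
  rw [← ph_pi hP hI, h1]
  split_ifs
  · rfl
  · rw [map_zero]

theorem pi_U (hP : Planar ω E B φ) (hI : Idem ω E B bar π χ) (x : X) (u : UU φ π χ) :
    π x (ba hP hI (Sum.inr u)) = if x = u.1 then ba hP hI (Sum.inr u) else 0 := by
  rw [ba_apply]
  obtain ⟨h1, h2, h3⟩ := memN hP hI (bN_mem u)
  exact h1 x

theorem ph_T (hP : Planar ω E B φ) (hI : Idem ω E B bar π χ) (a : Matrix (Fin 2) (Fin 2) ℂ)
    (p : Fin 2) (t : TT φ π χ) : ph φ χ t.1 a (ba hP hI (Sum.inl (p, t))) =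
      ∑ q, a q p • ba hP hI (Sum.inl (q, t)) := by
  simp only [ba_apply]
  show ph φ χ t.1 a (ph φ χ t.1 (EE p 0) (bM φ π χ t)) = ∑ q, a q p • ph φ χ t.1 (EE q 0) (bM φ π χ t)
  have h3 := congrArg (fun f : Module.End ℂ V => f (bM φ π χ t))
      (ph_mul (χ := χ) hP t.1 a (EE p 0))
  simp only [Module.End.mul_apply] at h3
  rw [← h3, mul_EE, map_sum, LinearMap.sum_apply]
  refine Finset.sum_congr rfl fun q _ => ?_
  rw [map_smul]
  rfl

theorem phi_U (hP : Planar ω E B φ) (hI : Idem ω E B bar π χ) (k : Fin n)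
    (a : Matrix (Fin 2) (Fin 2) ℂ) (u : UU φ π χ) : φ k a (ba hP hI (Sum.inr u)) = 0 := by
  rw [ba_apply]
  obtain ⟨h1, h2, h3⟩ := memN hP hI (bN_mem u)
  exact h3 k a

theorem ph_U (hP : Planar ω E B φ) (hI : Idem ω E B bar π χ) (x : X)
    (a : Matrix (Fin 2) (Fin 2) ℂ) (u : UU φ π χ) : ph φ χ x a (ba hP hI (Sum.inr u)) = 0 := by
  rcases h : io φ χ x with _ | i
  · rw [ph_none h]; rfl
  · rw [ph_some h, phi_U]

theorem io_T (hP : Planar ω E B φ) (hI : Idem ω E B bar π χ) (t : TT φ π χ) :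
    ∃ i, io φ χ t.1 = some i := by
  rcases h : io φ χ t.1 with _ | i
  · exfalso
    obtain ⟨h1, h2⟩ := memM hP hI (bM_mem t)
    rw [ph_none h] at h2
    have h3 : (0 : V) = bM φ π χ t := h2
    have h4 := (Module.finBasis ℂ (MM φ π χ t.1)).ne_zero t.2
    exact h4 (Subtype.ext h3.symm)
  · exact ⟨i, rfl⟩

theorem io_U (hP : Planar ω E B φ) (hI : Idem ω E B bar π χ) (u : UU φ π χ) :
    io φ χ u.1 = none := by
  rcases h : io φ χ u.1 with _ | i
  · rfl
  · exfalso
    obtain ⟨h1, h2, h3⟩ := memN hP hI (bN_mem u)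
    have h4 := h1 u.1
    rw [if_pos rfl] at h4
    have h5 := congrArg (fun f : Module.End ℂ V => f (bN φ π χ u)) (io_some hP hI h)
    simp only [Module.End.mul_apply] at h5
    rw [h4, h3] at h5
    have h6 := (Module.finBasis ℂ (NN φ π χ u.1)).ne_zero u.2
    exact h6 (Subtype.ext h5.symm)

/-- sum of the idempotents of `x` and `bar x` -/
noncomputable def PX (π : X → Module.End ℂ V) (bar : X → X) (x : X) : Module.End ℂ V :=
  ∑ y ∈ ({x, bar x} : Finset X), π y

theorem PX_adj (hI : Idem ω E B bar π χ) (x : X) (u v : V) :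
    ω (PX π bar x u) v = ω u (PX π bar x v) := by
  unfold PX
  simp only [LinearMap.sum_apply, map_sum]
  refine Finset.sum_bij (fun y _ => bar y) ?_ ?_ ?_ ?_
  · intro y hy
    simp only [Finset.mem_insert, Finset.mem_singleton] at hy ⊢
    rcases hy with rfl | rfl
    · right; rfl
    · left; exact hI.bar_bar _
  · intro y _ y' _ h
    rw [← hI.bar_bar y, h, hI.bar_bar]
  · intro y hy
    refine ⟨bar y, ?_, hI.bar_bar y⟩
    simp only [Finset.mem_insert, Finset.mem_singleton] at hy ⊢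
    rcases hy with rfl | rfl
    · right; rfl
    · left; exact hI.bar_bar _
  · intro y _
    exact hI.adj y u v

theorem PX_mem (hI : Idem ω E B bar π χ) (x : X) : PX π bar x ∈ B :=
  B.sum_mem fun y _ => hI.memB y

end

end Pool.Agent.Run7.h116.PL.BAS
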