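import Pool.Agent.Run7.h116.PL.BAS2

set_option autoImplicit false

open Module Pool.Agent.Run7.h358.PL Pool.Agent.Run7.h116.PL.QF

namespace Pool.Agent.Run7.h116.PL.BAS

section

variable {V : Type} [AddCommGroup V] [Module ℂ V] [FiniteDimensional ℂ V] {ω : V →ₗ[ℂ] V →ₗ[ℂ] ℂ}
  {E B : Submodule ℂ (Module.End ℂ V)} {n : ℕ}
  {φ : Fin n → Matrix (Fin 2) (Fin 2) ℂ →ₗ[ℂ] Module.End ℂ V}
  {X : Type} [Fintype X] [DecidableEq X] {bar : X → X} {π : X → Module.End ℂ V}
  {χ : X → Module.End ℂ V → ℂ}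

theorem PX_T (hP : Planar ω E B φ) (hI : Idem ω E B bar π χ) (x : X) (p : Fin 2) (t : TT φ π χ) :
    PX π bar x (ba hP hI (Sum.inl (p, t))) =
      if t.1 = x ∨ t.1 = bar x then ba hP hI (Sum.inl (p, t)) else 0 := by
  unfold PX
  rw [LinearMap.sum_apply]
  simp only [pi_T]
  rw [Finset.sum_ite_eq']
  simp only [Finset.mem_insert, Finset.mem_singleton]

theorem PX_U (hP : Planar ω E B φ) (hI : Idem ω E B bar π χ) (x : X) (u : UU φ π χ) :
    PX π bar x (ba hP hI (Sum.inr u)) =
      if u.1 = x ∨ u.1 = bar x then ba hP hI (Sum.inr u) else 0 := by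
  unfold PX
  rw [LinearMap.sum_apply]
  simp only [pi_U]
  rw [Finset.sum_ite_eq']
  simp only [Finset.mem_insert, Finset.mem_singleton]

theorem opM_eq (hP : Planar ω E B φ) (hI : Idem ω E B bar π χ) (x : X)
    (m : Matrix (Fin 2) (Fin 2) ℂ) :
    opM (ba hP hI) bar (fun t : TT φ π χ => t.1) x m = ph φ χ x m * PX π bar x := by
  refine (ba hP hI).ext fun y => ?_
  unfold opM
  rw [Basis.constr_basis, Module.End.mul_apply]
  rcases y with ⟨p, t⟩ | u
  · rw [PX_T]
    show (if t.1 = x ∨ t.1 = bar x then ∑ q, m q p • (ba hP hI) (Sum.inl (q, t)) else 0) = _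
    split_ifs with h
    · have h1 : ph φ χ x = ph φ χ t.1 := by
        rcases h with h | h
        · rw [h]
        · rw [h, ph_bar hP hI]
      rw [h1, ph_T]
    · rw [map_zero]
  · rw [PX_U]
    show (0 : V) = _
    split_ifs
    · rw [ph_U]
    · rw [map_zero]

theorem opT_eq (hP : Planar ω E B φ) (hI : Idem ω E B bar π χ) (x : X) :
    opT (ba hP hI) bar (fun t : TT φ π χ => t.1) x = ph φ χ x 1 * (π x - π (bar x)) := by
  refine (ba hP hI).ext fun y => ?_
  unfold opT
  rw [Basis.constr_basis, Module.End.mul_apply, LinearMap.sub_apply]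
  rcases y with ⟨p, t⟩ | u
  · rw [pi_T, pi_T]
    show ((if t.1 = x then (1 : ℂ) else 0) - if t.1 = bar x then 1 else 0) •
        (ba hP hI) (Sum.inl (p, t)) = _
    have key : (t.1 = x ∨ t.1 = bar x) → ph φ χ x 1 (ba hP hI (Sum.inl (p, t))) =
        ba hP hI (Sum.inl (p, t)) := by
      intro h
      have h1 : ph φ χ x = ph φ χ t.1 := by
        rcases h with h | h
        · rw [h]
        · rw [h, ph_bar hP hI]
      rw [h1, ph_T]
      simp [Matrix.one_apply]
    by_cases h1 : t.1 = x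
    · by_cases h2 : t.1 = bar x
      · rw [if_pos h1, if_pos h2, if_pos h1.symm, if_pos h2.symm, sub_self, sub_self, map_zero,
          zero_smul]
      · rw [if_pos h1, if_neg h2, if_pos h1.symm, if_neg (Ne.symm h2), sub_zero, sub_zero,
          key (Or.inl h1), one_smul]
    · by_cases h2 : t.1 = bar x
      · rw [if_neg h1, if_pos h2, if_neg (Ne.symm h1), if_pos h2.symm, zero_sub, zero_sub, map_neg,
          key (Or.inr h2), neg_smul, one_smul]
      · rw [if_neg h1, if_neg h2, if_neg (Ne.symm h1), if_neg (Ne.symm h2), sub_self, sub_self,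
          map_zero, zero_smul]
  · show (0 : V) = _
    rw [pi_U, pi_U, map_sub]
    split_ifs <;> simp [ph_U]

theorem opU_eq (hP : Planar ω E B φ) (hI : Idem ω E B bar π χ) (x : X) :
    opU (ba hP hI) bar (fun u : UU φ π χ => u.1) x =
      (π x - π (bar x)) - ph φ χ x 1 * (π x - π (bar x)) := by
  refine (ba hP hI).ext fun y => ?_
  rw [← opT_eq hP hI]
  unfold opU opT
  rw [Basis.constr_basis, LinearMap.sub_apply, LinearMap.sub_apply, Basis.constr_basis]
  rcases y with ⟨p, t⟩ | u
  · rw [pi_T, pi_T]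
    show (0 : V) = _ - ((if t.1 = x then (1 : ℂ) else 0) - if t.1 = bar x then 1 else 0) •
        (ba hP hI) (Sum.inl (p, t))
    by_cases h1 : t.1 = x
    · by_cases h2 : t.1 = bar x
      · rw [if_pos h1, if_pos h2, if_pos h1.symm, if_pos h2.symm]; simp
      · rw [if_pos h1, if_neg h2, if_pos h1.symm, if_neg (Ne.symm h2)]; simp
    · by_cases h2 : t.1 = bar x
      · rw [if_neg h1, if_pos h2, if_neg (Ne.symm h1), if_pos h2.symm]; simp
      · rw [if_neg h1, if_neg h2, if_neg (Ne.symm h1), if_neg (Ne.symm h2)]; simp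
  · rw [pi_U, pi_U]
    show ((if u.1 = x then (1 : ℂ) else 0) - if u.1 = bar x then 1 else 0) •
        (ba hP hI) (Sum.inr u) = _ - 0
    by_cases h1 : u.1 = x
    · by_cases h2 : u.1 = bar x
      · rw [if_pos h1, if_pos h2, if_pos h1.symm, if_pos h2.symm]; simp
      · rw [if_pos h1, if_neg h2, if_pos h1.symm, if_neg (Ne.symm h2)]; simp
    · by_cases h2 : u.1 = bar x
      · rw [if_neg h1, if_pos h2, if_neg (Ne.symm h1), if_pos h2.symm]; simp
      · rw [if_neg h1, if_neg h2, if_neg (Ne.symm h1), if_neg (Ne.symm h2)]; simp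

theorem dif_sk (hI : Idem ω E B bar π χ) (x : X) : Sk ω (π x - π (bar x)) := by
  intro u v
  have h1 := hI.adj x u v
  have h2 := hI.adj (bar x) u v
  rw [hI.bar_bar] at h2
  simp only [LinearMap.sub_apply, map_sub]
  linear_combination h1 - h2

theorem opT_sk (hP : Planar ω E B φ) (hI : Idem ω E B bar π χ) (x : X) :
    Sk ω (ph φ χ x 1 * (π x - π (bar x))) := by
  intro u v
  have h1 := ph_sa (χ := χ) hP x ((π x - π (bar x)) u) v
  have h2 := dif_sk hI x u (ph φ χ x 1 v)
  have h3 : (π x - π (bar x)) (ph φ χ x 1 v) = ph φ χ x 1 ((π x - π (bar x)) v) := by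
    simp only [LinearMap.sub_apply, map_sub, ph_pi hP hI]
  rw [h3] at h2
  simp only [Module.End.mul_apply]
  linear_combination h1 + h2

end

theorem main : S_BAS := by
  intro V _ _ _ ω E B n φ hP X _ _ bar π χ hI
  refine ⟨TT φ π χ, UU φ π χ, inferInstance, inferInstance, inferInstance, inferInstance,
    fun t => t.1, fun u => u.1, ba hP hI, ?_⟩
  have hdB : ∀ x, π x - π (bar x) ∈ B := fun x => B.sub_mem (hI.memB _) (hI.memB _)
  refine ⟨?_, ?_, ?_, ?_, ?_, ?_, ?_, ?_⟩
  · intro p t
    rw [pi_T, if_pos rfl]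
  · intro u
    rw [pi_U, if_pos rfl]
  · intro t
    obtain ⟨i, hi⟩ := io_T hP hI t
    have hio : ∀ t' : TT φ π χ, (t'.1 = t.1 ∨ t'.1 = bar t.1) → io φ χ t'.1 = some i := by
      rintro t' (h | h)
      · rw [h, hi]
      · rw [h, io_bar hP hI, hi]
    refine ⟨i, fun a p t' ht' => ?_, fun k hk a p t' ht' => ?_⟩
    · rw [← ph_some (hio t' ht'), ph_T]
    · have h1 : ba hP hI (Sum.inl (p, t')) = φ i (EE p 0) (bM φ π χ t') := by
        rw [ba_apply, ← ph_some (hio t' ht')]
        rfl
      rw [h1]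
      have h2 := congrArg (fun f : Module.End ℂ V => f (bM φ π χ t')) (hP.orth k i hk a (EE p 0))
      simpa only [Module.End.mul_apply, LinearMap.zero_apply] using h2
  · intro i a u
    exact phi_U hP hI i a u
  · intro u hfix
    have hfix' : bar u.1 = u.1 := hfix
    have hio := io_U hP hI u
    obtain ⟨h1, h2, h3⟩ := memN hP hI (bN_mem u)
    have h4 : bN φ π χ u = 0 := by
      refine hP.inv _ fun Y hY hs => ?_
      obtain ⟨x, hx0, hxE⟩ := hP.gen Y hY hs
      set z : Module.End ℂ V := Y - ∑ i, φ i (x i) with hz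
      have hzB : z ∈ B := B.sub_mem hY (B.sum_mem fun i _ => (hP.sl i (x i) (hx0 i)).1)
      have hzs : Sk ω z := by
        intro a b
        have g1 := hs a b
        have g2 : ∀ i, ω (φ i (x i) a) b + ω a (φ i (x i) b) = 0 :=
          fun i => (hP.sl i (x i) (hx0 i)).2 a b
        have g3 : ∑ i, (ω (φ i (x i) a) b + ω a (φ i (x i) b)) = 0 :=
          Finset.sum_eq_zero fun i _ => g2 i
        rw [Finset.sum_add_distrib] at g3
        simp only [hz, LinearMap.sub_apply, LinearMap.sum_apply, map_sub, map_sum]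
        linear_combination g1 - g3
      have h5 : Y (bN φ π χ u) = z (bN φ π χ u) + ∑ i, φ i (x i) (bN φ π χ u) := by
        simp [hz, LinearMap.sub_apply, LinearMap.sum_apply]
      have h6 : ∑ i, φ i (x i) (bN φ π χ u) = 0 := Finset.sum_eq_zero fun i _ => h3 i _
      have h7 := chi_bar hP.alg hI hzB hxE hzs u.1
      rw [hfix'] at h7
      have h8 : χ u.1 z = 0 := by linear_combination h7 / 2
      have h9 := congrArg (fun f : Module.End ℂ V => f (bN φ π χ u)) (hI.scal z hzB hxE u.1)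
      simp only [Module.End.mul_apply, LinearMap.smul_apply] at h9
      rw [h1, if_pos rfl, h8, zero_smul] at h9
      rw [h5, h6, h9, add_zero]
    exact (Module.finBasis ℂ (NN φ π χ u.1)).ne_zero u.2 (Subtype.ext h4)
  · intro x m hm
    rw [opM_eq]
    refine ⟨mulB hP.alg (ph_mem hP x m) (PX_mem hI x), fun u v => ?_⟩
    have h1 := ph_sk (χ := χ) hP x m hm (PX π bar x u) v
    have h2 := PX_adj hI x u (ph φ χ x m v)
    have h3 : PX π bar x (ph φ χ x m v) = ph φ χ x m (PX π bar x v) := by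
      unfold PX
      simp only [LinearMap.sum_apply, map_sum, ph_pi hP hI]
    rw [h3] at h2
    simp only [Module.End.mul_apply]
    linear_combination h1 - h2
  · intro x
    rw [opT_eq]
    exact ⟨mulB hP.alg (ph_mem hP x 1) (hdB x), opT_sk hP hI x⟩
  · intro x
    rw [opU_eq]
    refine ⟨B.sub_mem (hdB x) (mulB hP.alg (ph_mem hP x 1) (hdB x)), fun u v => ?_⟩
    have h1 := dif_sk hI x u v
    have h2 := opT_sk hP hI x u v
    have e1 : ∀ w, (π x - π (bar x) - ph φ χ x 1 * (π x - π (bar x))) w =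
        (π x - π (bar x)) w - (ph φ χ x 1 * (π x - π (bar x))) w := fun w => rfl
    have e2 : ∀ a b : V, ω (a - b) v = ω a v - ω b v := fun a b => by
      rw [map_sub]; rfl
    have e3 : ∀ a b : V, ω u (a - b) = ω u a - ω u b := fun a b => map_sub _ _ _
    rw [e1, e1, e2, e3]
    linear_combination h1 - h2

end Pool.Agent.Run7.h116.PL.BAS
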