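import Pool.Agent.Run7.h358.PL.Iface

set_option autoImplicit false

open Module Pool.Agent.Run7.h358.PL

namespace Pool.Agent.Run7.h116.PL.QF

section

variable {V : Type} [AddCommGroup V] [Module ℂ V] {ω : V →ₗ[ℂ] V →ₗ[ℂ] ℂ}

theorem nd2 (alt : ∀ u v, ω u v = -ω v u) (nd : ∀ u, (∀ v, ω u v = 0) → u = 0) {a b : V}
    (h : ∀ u, ω u a = ω u b) : a = b := by
  have h1 : a - b = 0 := by
    refine nd _ fun v => ?_
    rw [alt, map_sub, h v, sub_self, neg_zero]
  exact sub_eq_zero.1 h1

theorem exQ [FiniteDimensional ℂ V] (alt : ∀ u v, ω u v = -ω v u)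
    (nd : ∀ u, (∀ v, ω u v = 0) → u = 0) (β : V →ₗ[ℂ] V →ₗ[ℂ] ℂ) :
    ∃ Q : Module.End ℂ V, ∀ u v, β u v = ω u (Q v) := by
  have hinj : Function.Injective (ω.flip : V →ₗ[ℂ] (V →ₗ[ℂ] ℂ)) := by
    intro a b hab
    exact nd2 alt nd fun u => by
      have := congrArg (fun f : V →ₗ[ℂ] ℂ => f u) hab
      simpa using this
  have hd : Module.finrank ℂ V = Module.finrank ℂ (V →ₗ[ℂ] ℂ) := (Subspace.dual_finrank_eq).symm
  let L : V ≃ₗ[ℂ] (V →ₗ[ℂ] ℂ) := LinearMap.linearEquivOfInjective ω.flip hinj hd
  have hL : ∀ v, L v = ω.flip v := fun v => LinearMap.linearEquivOfInjective_apply hinj hd v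
  refine ⟨(L.symm : (V →ₗ[ℂ] ℂ) →ₗ[ℂ] V).comp β.flip, fun u v => ?_⟩
  have h1 : L (L.symm (β.flip v)) = β.flip v := L.apply_symm_apply _
  rw [hL] at h1
  have h2 := congrArg (fun f : V →ₗ[ℂ] ℂ => f u) h1
  simpa using h2.symm

/-- the scalars of a skew element of the centre at `x` and `bar x` are opposite -/
theorem chi_bar {E B : Submodule ℂ (Module.End ℂ V)} (hA : Alg0 ω E B) {X : Type} [Fintype X]
    [DecidableEq X] {bar : X → X} {π : X → Module.End ℂ V} {χ : X → Module.End ℂ V → ℂ}
    (hI : Idem ω E B bar π χ) {z : Module.End ℂ V} (hB : z ∈ B) (hE : z ∈ E) (hs : Sk ω z) (c : X) :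
    χ (bar c) z = - χ c z := by
  have h1 : ∀ v, - (χ (bar c) z • π (bar c) v) = χ c z • π (bar c) v := by
    intro v
    refine nd2 hA.alt hA.nondeg fun u => ?_
    have e1 : ω (z (π c u)) v = χ c z * ω (π c u) v := by
      have := congrArg (fun f : Module.End ℂ V => f u) (hI.scal z hB hE c)
      simp only [Module.End.mul_apply, LinearMap.smul_apply] at this
      rw [this, map_smul]
      rfl
    have e2 : ω (z (π c u)) v = - ω u (π (bar c) (z v)) := by
      have := hs (π c u) v
      rw [← hI.adj]
      linear_combination this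
    have e3 : π (bar c) (z v) = χ (bar c) z • π (bar c) v := by
      have h3 := (hA.commB z).1 hB (π (bar c)) (hI.memE _)
      have h4 := congrArg (fun f : Module.End ℂ V => f v) h3
      have h5 := congrArg (fun f : Module.End ℂ V => f v) (hI.scal z hB hE (bar c))
      simp only [Module.End.mul_apply, LinearMap.smul_apply] at h4 h5
      rw [← h4, h5]
    rw [map_neg, map_smul, map_smul, smul_eq_mul, smul_eq_mul, ← hI.adj]
    rw [e3, map_smul, smul_eq_mul, ← hI.adj] at e2
    linear_combination e1 - e2
  obtain ⟨v, hv⟩ : ∃ v, π (bar c) v ≠ 0 := by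
    by_contra hcon
    push Not at hcon
    exact hI.ne (bar c) (LinearMap.ext fun v => by simpa using hcon v)
  have h2 := h1 v
  have h3 : (χ c z + χ (bar c) z) • π (bar c) v = 0 := by
    rw [add_smul, ← h2, neg_add_cancel]
  rcases smul_eq_zero.1 h3 with h4 | h4
  · linear_combination h4
  · exact absurd h4 hv

end

theorem main : S_QF := by
  intro V _ _ _ ω E B n φ hP X _ _ bar π χ hI T U _ _ _ _ cT cU e hAd β δ hδ hβ
  have hA := hP.alg
  obtain ⟨Q, hQ⟩ := exQ hA.alt hA.nondeg β
  refine ⟨Q, hP.com Q fun Y hYB hYs => ?_, hQ⟩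
  have key : ∀ u v, β (Y u) v + β u (Y v) = 0 := by
    obtain ⟨x, hx0, hxE⟩ := hP.gen Y hYB hYs
    set z : Module.End ℂ V := Y - ∑ i, φ i (x i) with hz
    have hzB : z ∈ B := B.sub_mem hYB (B.sum_mem fun i _ => (hP.sl i (x i) (hx0 i)).1)
    have hzs : Sk ω z := by
      intro u v
      have h1 := hYs u v
      have h2 : ∀ i, ω (φ i (x i) u) v + ω u (φ i (x i) v) = 0 := fun i => (hP.sl i (x i) (hx0 i)).2 u v
      have h3 : ∑ i, (ω (φ i (x i) u) v + ω u (φ i (x i) v)) = 0 := Finset.sum_eq_zero fun i _ => h2 i
      rw [Finset.sum_add_distrib] at h3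
      simp only [hz, LinearMap.sub_apply, LinearMap.sum_apply, map_sub, map_sum]
      linear_combination h1 - h3
    have hY : ∀ v, Y v = z v + ∑ i, φ i (x i) v := by
      intro v
      simp [hz, LinearMap.sub_apply, LinearMap.sum_apply]
    have hzT : ∀ p t, z (e (Sum.inl (p, t))) = χ (cT t) z • e (Sum.inl (p, t)) := by
      intro p t
      have h1 := congrArg (fun f : Module.End ℂ V => f (e (Sum.inl (p, t)))) (hI.scal z hzB hxE (cT t))
      simpa only [Module.End.mul_apply, LinearMap.smul_apply, hAd.piT] using h1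
    have hzU : ∀ u, z (e (Sum.inr u)) = χ (cU u) z • e (Sum.inr u) := by
      intro u
      have h1 := congrArg (fun f : Module.End ℂ V => f (e (Sum.inr u))) (hI.scal z hzB hxE (cU u))
      simpa only [Module.End.mul_apply, LinearMap.smul_apply, hAd.piU] using h1
    have hYT : ∀ t, ∃ a : Matrix (Fin 2) (Fin 2) ℂ, a.trace = 0 ∧
        ∀ p t', (cT t' = cT t ∨ cT t' = bar (cT t)) →
          Y (e (Sum.inl (p, t'))) = χ (cT t') z • e (Sum.inl (p, t')) +
            ∑ q, a q p • e (Sum.inl (q, t')) := by
      intro t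
      obtain ⟨i, hi, hk⟩ := hAd.phiT t
      refine ⟨x i, hx0 i, fun p t' ht' => ?_⟩
      rw [hY, hzT, Finset.sum_eq_single i, hi _ _ _ ht']
      · intro k _ hki
        exact hk k hki _ _ _ ht'
      · intro h; exact absurd (Finset.mem_univ i) h
    have hYU : ∀ u, Y (e (Sum.inr u)) = χ (cU u) z • e (Sum.inr u) := by
      intro u
      rw [hY, hzU, Finset.sum_eq_zero, add_zero]
      intro i _
      exact hAd.phiU i _ u
    have hb : β.comp Y + β.compl₂ Y = 0 := by
      refine e.ext fun y => e.ext fun y' => ?_
      simp only [LinearMap.add_apply, LinearMap.comp_apply, LinearMap.compl₂_apply, LinearMap.zero_apply]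
      rcases hδ with ⟨t, t', htt, rfl⟩ | ⟨u, u', huu, rfl⟩
      · rcases y with ⟨p, s⟩ | v
        · rcases y' with ⟨p', s'⟩ | v'
          · by_cases hs : s = t ∧ s' = t'
            · obtain ⟨rfl, rfl⟩ := hs
              obtain ⟨a, ha, haY⟩ := hYT s
              rw [haY p s (Or.inl rfl), haY p' s' (Or.inr htt)]
              simp only [map_add, map_smul, map_sum, LinearMap.add_apply, LinearMap.smul_apply,
                LinearMap.sum_apply, hβ, dlT, Fin.sum_univ_two, smul_eq_mul, and_self, if_true]
              have hch : χ (cT s') z = - χ (cT s) z := by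
                rw [htt]; exact chi_bar hA hI hzB hxE hzs _
              rw [Matrix.trace_fin_two] at ha
              rw [hch]
              fin_cases p <;> fin_cases p' <;> simp [ep] <;>
                first | linear_combination ha | linear_combination -ha | ring
            · obtain ⟨a, ha, haY⟩ := hYT s
              obtain ⟨a', ha', haY'⟩ := hYT s'
              rw [haY p s (Or.inl rfl), haY' p' s' (Or.inl rfl)]
              simp only [map_add, map_smul, map_sum, LinearMap.add_apply, LinearMap.smul_apply,
                LinearMap.sum_apply, hβ, dlT, Fin.sum_univ_two, smul_eq_mul]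
              simp [hs]
          · obtain ⟨a, ha, haY⟩ := hYT s
            rw [haY p s (Or.inl rfl), hYU]
            simp only [map_add, map_smul, map_sum, LinearMap.add_apply, LinearMap.smul_apply,
                LinearMap.sum_apply, hβ, dlT, Fin.sum_univ_two, smul_eq_mul]
            simp
        · rcases y' with ⟨p', s'⟩ | v'
          · obtain ⟨a', ha', haY'⟩ := hYT s'
            rw [haY' p' s' (Or.inl rfl), hYU]
            simp only [map_add, map_smul, map_sum, LinearMap.add_apply, LinearMap.smul_apply,
                LinearMap.sum_apply, hβ, dlT, Fin.sum_univ_two, smul_eq_mul]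
            simp
          · rw [hYU, hYU]
            simp only [map_smul, LinearMap.smul_apply, hβ, dlT, smul_eq_mul]
            simp
      · rcases y with ⟨p, s⟩ | v
        · rcases y' with ⟨p', s'⟩ | v'
          · obtain ⟨a, ha, haY⟩ := hYT s
            obtain ⟨a', ha', haY'⟩ := hYT s'
            rw [haY p s (Or.inl rfl), haY' p' s' (Or.inl rfl)]
            simp only [map_add, map_smul, map_sum, LinearMap.add_apply, LinearMap.smul_apply,
                LinearMap.sum_apply, hβ, dlU, Fin.sum_univ_two, smul_eq_mul]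
            simp
          · obtain ⟨a, ha, haY⟩ := hYT s
            rw [haY p s (Or.inl rfl), hYU]
            simp only [map_add, map_smul, map_sum, LinearMap.add_apply, LinearMap.smul_apply,
                LinearMap.sum_apply, hβ, dlU, Fin.sum_univ_two, smul_eq_mul]
            simp
        · rcases y' with ⟨p', s'⟩ | v'
          · obtain ⟨a', ha', haY'⟩ := hYT s'
            rw [haY' p' s' (Or.inl rfl), hYU]
            simp only [map_add, map_smul, map_sum, LinearMap.add_apply, LinearMap.smul_apply,
                LinearMap.sum_apply, hβ, dlU, Fin.sum_univ_two, smul_eq_mul]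
            simp
          · rw [hYU, hYU]
            simp only [map_smul, LinearMap.smul_apply, hβ, dlU, smul_eq_mul]
            by_cases hs : v = u ∧ v' = u'
            · obtain ⟨rfl, rfl⟩ := hs
              have hch : χ (cU v') z = - χ (cU v) z := by
                rw [huu]; exact chi_bar hA hI hzB hxE hzs _
              rw [hch]
              simp
            · simp [hs]
    intro u v
    have := congrArg (fun f : V →ₗ[ℂ] V →ₗ[ℂ] ℂ => f u v) hb
    simpa using this
  refine LinearMap.ext fun v => ?_
  simp only [Module.End.mul_apply]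
  refine nd2 hA.alt hA.nondeg fun u => ?_
  have h1 := key u v
  rw [hQ, hQ] at h1
  have h2 := hYs u (Q v)
  linear_combination h2 - h1

end Pool.Agent.Run7.h116.PL.QF
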